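import Pool.Agent.X263.Qf.Aug

/-!
# Bordered quadratic forms over group rings are induced from the coefficients

Let `K` be a division ring with involution, `G` a group with unique products, `w` an orientation
character of `G` and `ε = ±1`.  Every nonsingular `ε`-quadratic form over `K[G]` whose matrix has,
off one row and the column of the same index, entries of the form `k g_i g_j⁻¹`, is isometric to
a form over `K` (for trivial `w`: to its augmentation).
-/

set_option autoImplicit false

namespace Pool.Agent.Results.MP_8a3537_gt.BorderedForms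

open Matrix TH6.PF

theorem result (K G : Type) [DivisionRing K] [StarRing K] [Group G] [UniqueProds G]
    (w : G →* ℤˣ) (ε : ℤ) (hε : ε * ε = 1) (n : ℕ)
    (ψ : Matrix (Fin n) (Fin n) (MonoidAlgebra K G)) (hψ : IsUnit (ψ + ε • sadj w ψ))
    (i₀ : Fin n) (g : Fin n → G)
    (h : ∀ i j, i ≠ i₀ → j ≠ i₀ → ∃ k : K, ψ i j = MonoidAlgebra.single (g i * (g j)⁻¹) k) :
    (∃ (θ : Matrix (Fin n) (Fin n) K) (P : (Matrix (Fin n) (Fin n) (MonoidAlgebra K G))ˣ)
      (χ : Matrix (Fin n) (Fin n) (MonoidAlgebra K G)), IsUnit (θ + ε • θᴴ) ∧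
      P.val * ψ * sadj w P.val =
        θ.map (fun k => MonoidAlgebra.single (1 : G) k) + (χ - ε • sadj w χ)) ∧
    (w = 1 → ∃ (P : (Matrix (Fin n) (Fin n) (MonoidAlgebra K G))ˣ)
      (χ : Matrix (Fin n) (Fin n) (MonoidAlgebra K G)),
      P.val * ψ * sadj w P.val =
        (ψ.map fun x => x.coeff.sum fun _ k => k).map
          (fun k => MonoidAlgebra.single (1 : G) k) + (χ - ε • sadj w χ)) := by
  obtain ⟨θ, hθ, h1⟩ := Pool.Agent.X263.Qf.const_form K G w ε hε n ψ hψ i₀ g h
  refine ⟨?_, ?_⟩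
  · obtain ⟨P, χ, h2⟩ := h1
    exact ⟨θ, P, χ, hθ, h2⟩
  · rintro rfl
    exact Pool.Agent.X263.Qf.aug_form ε ψ θ h1

end Pool.Agent.Results.MP_8a3537_gt.BorderedForms
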