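import Pool.Agent.X263.Qh.Fin

/-!
# Bordered even forms over group rings of factorial domains containing one half

Let `R` be a factorial domain with trivial involution in which `2` is invertible and such that
`SL₂(R)` is generated by elementary matrices (for instance a Euclidean domain or a regular local
ring containing `1/2`), and let `G` be a group with unique products. Every nonsingular
`1`-quadratic form over `R[G]` whose matrix has, off one row and the column of the same index,
entries of the form `r g_i g_j⁻¹`, is stably isometric to its augmentation.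
-/

set_option autoImplicit false

namespace Pool.Agent.Results.MP_8a3537_gt.EvenBorders

open Matrix TH6.PF

theorem result (R G : Type) [CommRing R] [IsDomain R] [UniqueFactorizationMonoid R]
    [StarRing R] [TrivialStar R] (h2 : IsUnit (2 : R))
    (hE : Subgroup.closure {x : Matrix.SpecialLinearGroup (Fin 2) R |
      ∃ r : R, x.val = !![1, r; 0, 1] ∨ x.val = !![1, 0; r, 1]} = ⊤)
    [Group G] [UniqueProds G] (n : ℕ) (ψ : Matrix (Fin n) (Fin n) (MonoidAlgebra R G))
    (hψ : IsUnit (ψ + sadj 1 ψ)) (i₀ : Fin n) (g : Fin n → G)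
    (h : ∀ i j, i ≠ i₀ → j ≠ i₀ → ∃ r : R, ψ i j = MonoidAlgebra.single (g i * (g j)⁻¹) r) :
    ∃ (k : ℕ)
      (P : (Matrix (Fin n ⊕ (Fin k ⊕ Fin k)) (Fin n ⊕ (Fin k ⊕ Fin k)) (MonoidAlgebra R G))ˣ)
      (χ : Matrix (Fin n ⊕ (Fin k ⊕ Fin k)) (Fin n ⊕ (Fin k ⊕ Fin k)) (MonoidAlgebra R G)),
      P.val * fromBlocks ψ 0 0 (fromBlocks 0 1 0 0) * sadj 1 P.val =
        fromBlocks (ψ.map fun x => MonoidAlgebra.single 1 (x.coeff.sum fun _ r => r)) 0 0
          (fromBlocks 0 1 0 0) + (χ - sadj 1 χ) := by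
  let _ := Pool.Agent.X263.Qf.sr (R := R) (1 : G →* ℤˣ)
  obtain ⟨η, hη⟩ := h2.exists_right_inv
  have h1 := (Pool.Agent.X263.Qf.grp_stab 1 (by norm_num) n ψ
    (by rw [one_smul]; exact hψ) i₀ g h
    (fun δ hδ hn => Pool.Agent.X263.Qh.even hη hE δ hδ hn)).fin
  obtain ⟨k, P, Q, χ, h2, h3, h4⟩ := h1
  refine ⟨k, ⟨P, Q, h2, h3⟩, χ, ?_⟩
  rw [one_smul] at h4
  exact h4

end Pool.Agent.Results.MP_8a3537_gt.EvenBorders
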