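import Pool.Agent.TH6.LF.Form1

/-!
# Quadratic forms over integral group rings can be made thin, up to the constant `3 / √2`

Every quadratic form over `ℤG`, `G` any group, becomes after adding a hyperbolic form and a change
of basis in the commutator subgroup of the general linear group a form whose symmetrisations have
operator norm at most `c`, for any given `c > 3 / √2`.
-/

set_option autoImplicit false

namespace Pool.Agent.Results.MP_8a3537_gt.FormNormReduction

open TH57.Thr TH6.LF

/-- The form `ψ ⊥ H^m`, where `H` is the hyperbolic plane, in the basis given by `P`. -/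
noncomputable def changed {G : Type} [Group G] {n m : ℕ}
    (ψ : Matrix (Fin n) (Fin n) (MonoidAlgebra ℤ G))
    (P : (Matrix (Fin n ⊕ (Fin m ⊕ Fin m)) (Fin n ⊕ (Fin m ⊕ Fin m)) (MonoidAlgebra ℤ G))ˣ) :
    Matrix (Fin n ⊕ (Fin m ⊕ Fin m)) (Fin n ⊕ (Fin m ⊕ Fin m)) (MonoidAlgebra ℤ G) :=
  P.val * addHyp (Fin m) ψ * adj P.val

/-- Let `G` be any group, `ψ` a square matrix over `ℤG` (a quadratic form) and `c > 3 / √2`. There
are `m` and a product `P` of commutators of invertible matrices such that, with `ψ'` the form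
`ψ ⊥ H^m` in the basis given by `P`, the operator norms of `ψ' + ψ'*` and of `ψ' - ψ'*` are at
most `c`. -/
theorem result (G : Type) [Group G] (c : ℝ) (hc : 9 / 2 < c ^ 2) (n : ℕ)
    (ψ : Matrix (Fin n) (Fin n) (MonoidAlgebra ℤ G)) :
    ∃ (m : ℕ) (P : (Matrix (Fin n ⊕ (Fin m ⊕ Fin m)) (Fin n ⊕ (Fin m ⊕ Fin m))
        (MonoidAlgebra ℤ G))ˣ),
      P ∈ commutator (Matrix (Fin n ⊕ (Fin m ⊕ Fin m)) (Fin n ⊕ (Fin m ⊕ Fin m))
        (MonoidAlgebra ℤ G))ˣ ∧
      NormLE (changed ψ P + adj (changed ψ P)) c ∧ NormLE (changed ψ P - adj (changed ψ P)) c := by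
  obtain ⟨m, P, h1, h2⟩ := form_reduction_fin n ψ c hc
  refine ⟨m, P, h1, ?_, ?_⟩
  · have := h2 1 (Or.inl rfl)
    rw [one_smul] at this
    exact this
  · have := h2 (-1) (Or.inr rfl)
    rw [neg_smul, one_smul, ← sub_eq_add_neg] at this
    exact this

end Pool.Agent.Results.MP_8a3537_gt.FormNormReduction
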