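import Pool.Agent.X252.LMQ

/-!
Rational injectivity of the L-theoretic assembly maps for the torsion-free groups `F / [S, S]`, with
coefficients in an arbitrary ring with involution.

`lqa A ε` is the functor `G ↦ L₀(A[G]; ε) ⊗ ℚ` (nonsingular `ε`-quadratic forms on finitely
generated projective modules modulo hyperbolic ones), for an arbitrary ring `A` with involution (for
`A = R[ℤ^m]` this contains the groups `L_{-i}(R[G]) ⊗ ℚ`, `0 ≤ i ≤ m`, up to the decoration).
`α_b : H_{d(b)}(G; ℚ) → L₀(A[G]; ε) ⊗ ℚ`, `b ∈ B`, is any family of transformations natural in the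
group `G`, and `kerFam α G` is the kernel of their sum.

If the sum is injective on `ℤ^n` for all `n`, then it is injective on `F / [S, S]` for every free
group `F` and every normal subgroup `S` of `F`. If the degrees `d(b)` are distinct, it is enough
that `α_b` is not zero on `ℤ^{d(b)}` for each `b`.
-/

namespace Pool.Agent.Results.MP_8a3537_gt.MagnusQuotients

open CategoryTheory Pool.Agent.Y483 Pool.Agent.Y75.MQ Pool.Agent.X252.LMQ

theorem result (A : Type) [Ring A] [StarRing A] (ε : ℤˣ) {B : Type} {d : B → ℕ}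
    (α : ∀ b : B, hq (d b) ⟶ lqa A ε) :
    ((∀ n, kerFam α (zn n) = ⊥) ↔
      ∀ (X : Type) (S : Subgroup (FreeGroup X)) [S.Normal], kerFam α (modComm S) = ⊥) ∧
    (Function.Injective d →
      ((∀ b, (α b).app (zn (d b)) ≠ 0) ↔
        ∀ (X : Type) (S : Subgroup (FreeGroup X)) [S.Normal], kerFam α (modComm S) = ⊥)) :=
  ⟨fam_iff (hasTransfers_lqa A ε) α, fun hd => inj_iff (hasTransfers_lqa A ε) α hd⟩

end Pool.Agent.Results.MP_8a3537_gt.MagnusQuotients
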